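import Pool.Agent.Work.MP_ebd05c_an.D.Inv
import Pool.Agent.Work.MP_ebd05c_an.RS

set_option autoImplicit false

open scoped BigOperators ENNReal InnerProductSpace
open Finset Filter Polynomial

namespace Pool.Agent.Work.MP_ebd05c_an.D

/-- the functional -/
noncomputable def phi (V : ℕ → ℕ) (hV : ∀ k, 0 < V k) (e : ℕ → ℝ) (he : ∀ k, 0 < e k) (e0 : ℝ) (he0 : ∀ k, e k ≤ e0) (k : ℕ) : ℂ[X] →ₗ[ℂ] ℂ where
  toFun p := ((aeval (TOp V hV e he e0 he0) p) (v0 k) : Idx → ℂ) (k, false, 0)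
  map_add' p q := by simp
  map_smul' c p := by simp

lemma phi_X_pow (V : ℕ → ℕ) (hV : ∀ k, 0 < V k) (e : ℕ → ℝ) (he : ∀ k, 0 < e k) (e0 : ℝ) (he0 : ∀ k, e k ≤ e0) (k m : ℕ) :
    phi V hV e he e0 he0 k (X ^ m) =
      (e k : ℂ) * ∑ j ∈ range (k + 1), if m = lam (V k) k j then 1 else 0 := by
  show ((aeval (TOp V hV e he e0 he0) (X ^ m : ℂ[X])) (v0 k) : Idx → ℂ) (k, false, 0) = _
  rw [map_pow, aeval_X, TOp_pow_apply]
  simp only [TF]
  rw [v0_false, mul_zero, zero_add]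
  congr 1
  unfold QF
  apply Finset.sum_congr rfl
  intro j _
  have hl := ell_pos (V k) k j
  show (kap (V k) k m j 0 : ℂ) * (v0 k : Idx → ℂ) (k, true, (m : ℤ) - 1 - 2 * ell (V k) k j - 0)
    = _
  rw [v0_true]
  by_cases h : m = lam (V k) k j
  · have h2 : (m : ℤ) - 1 - 2 * ell (V k) k j - 0 = 0 := by
      rw [h]; unfold lam; push_cast; ring
    rw [if_pos h, if_pos h2]
    have h3 : kap (V k) k m j 0 = 1 := by
      unfold kap
      rw [if_pos (by omega), h2, rho_of_nonpos (hV k) k le_rfl, one_mul]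
    rw [h3]
    simp
  · rw [if_neg h, if_neg, mul_zero]
    intro hc
    apply h
    unfold lam
    omega

lemma phi_X_pow_of_ne (V : ℕ → ℕ) (hV : ∀ k, 0 < V k) (e : ℕ → ℝ) (he : ∀ k, 0 < e k) (e0 : ℝ) (he0 : ∀ k, e k ≤ e0) (k m : ℕ)
    (h : ∀ j, j < k + 1 → m ≠ lam (V k) k j) : phi V hV e he e0 he0 k (X ^ m) = 0 := by
  rw [phi_X_pow, Finset.sum_eq_zero, mul_zero]
  intro j hj
  rw [if_neg (h j (Finset.mem_range.1 hj))]

lemma phi_X_pow_lam (V : ℕ → ℕ) (hV : ∀ k, 0 < V k) (e : ℕ → ℝ) (he : ∀ k, 0 < e k) (e0 : ℝ) (he0 : ∀ k, e k ≤ e0) (k j : ℕ) (hj : j < k + 1) :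
    phi V hV e he e0 he0 k (X ^ lam (V k) k j) = e k := by
  rw [phi_X_pow, Finset.sum_eq_single j]
  · simp
  · intro i _ hij
    rw [if_neg]
    intro hc
    rcases lt_or_gt_of_ne hij with h | h
    · have := lam_gap (V k) k h
      omega
    · have := lam_gap (V k) k h
      omega
  · intro h
    exact absurd (Finset.mem_range.2 hj) h

lemma phi_step (V : ℕ → ℕ) (hV : ∀ k, 0 < V k) (e : ℕ → ℝ) (he : ∀ k, 0 < e k) (e0 : ℝ) (he0 : ∀ k, e k ≤ e0) (k j : ℕ) (hj : j < k + 1) (R : ℂ[X])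
    (hdeg : R.natDegree ≤ DD (V k) k j) (hlead : R.coeff (DD (V k) k j) = 1) :
    phi V hV e he e0 he0 k (X ^ dd (V k) k j * R) = e k := by
  have h1 : X ^ dd (V k) k j * R = ∑ i ∈ range (DD (V k) k j + 1),
      R.coeff i • (X ^ (dd (V k) k j + i) : ℂ[X]) := by
    conv_lhs => rw [R.as_sum_range' (DD (V k) k j + 1) (by omega)]
    rw [Finset.mul_sum]
    apply Finset.sum_congr rfl
    intro i _
    rw [← C_mul_X_pow_eq_monomial, smul_eq_C_mul, pow_add]
    ring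
  rw [h1, map_sum, Finset.sum_range_succ, map_smul, hlead, dd_add, phi_X_pow_lam V hV e he e0 he0 k j hj]
  have h2 : ∑ i ∈ range (DD (V k) k j),
      phi V hV e he e0 he0 k (R.coeff i • (X ^ (dd (V k) k j + i) : ℂ[X])) = 0 := by
    apply Finset.sum_eq_zero
    intro i hi
    have hi' := Finset.mem_range.1 hi
    rw [map_smul, phi_X_pow_of_ne, smul_zero]
    intro l hl hc
    have h3 := dd_add (V k) k j
    have h4 := DD_lt_dd (V k) k j
    rcases lt_trichotomy l j with h | h | h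
    · have := lam_le_DD (V k) k h
      omega
    · rw [h] at hc
      omega
    · have := lam_gap (V k) k h
      omega
  rw [h2]
  simp

lemma RS_main (V : ℕ → ℕ) (hV : ∀ k, 0 < V k) (e : ℕ → ℝ) (he : ∀ k, 0 < e k) (e0 : ℝ) (he0 : ∀ k, e k ≤ e0) (k : ℕ) (c : ℝ) (j : ℕ) (hj : j ≤ k + 1) :
    (RS c (dd (V k) k) j).1.natDegree ≤ DD (V k) k j ∧
    (RS c (dd (V k) k) j).2.natDegree ≤ DD (V k) k j ∧
    (RS c (dd (V k) k) j).2.coeff (DD (V k) k j) = 1 ∧
    phi V hV e he e0 he0 k (RS c (dd (V k) k) j).1 = j * c * e k := by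
  induction j with
  | zero => simp [RS, DD]
  | succ j ih =>
    obtain ⟨h1, h2, h3, h4⟩ := ih (by omega)
    set P := (RS c (dd (V k) k) j).1 with hP
    set R := (RS c (dd (V k) k) j).2 with hR
    have hD : DD (V k) k (j + 1) = lam (V k) k j := rfl
    have hdd := dd_add (V k) k j
    have hlt := DD_lt_dd (V k) k j
    have e1 : (RS c (dd (V k) k) (j + 1)).1 = P + C (c : ℂ) * (X ^ dd (V k) k j * R) := rfl
    have e2 : (RS c (dd (V k) k) (j + 1)).2 = X ^ dd (V k) k j * R - C (c : ℂ) * P := rfl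
    have hXR : (X ^ dd (V k) k j * R).natDegree ≤ lam (V k) k j := by
      refine natDegree_mul_le.trans ?_
      rw [natDegree_X_pow]
      omega
    have hP' : P.natDegree ≤ lam (V k) k j := by omega
    rw [e1, e2, hD]
    refine ⟨?_, ?_, ?_, ?_⟩
    · refine natDegree_add_le_of_degree_le hP' ((natDegree_C_mul_le _ _).trans hXR)
    · refine (natDegree_sub_le_of_le hXR ((natDegree_C_mul_le _ _).trans hP')).trans ?_
      simp
    · rw [coeff_sub, coeff_C_mul]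
      have h5 : P.coeff (lam (V k) k j) = 0 := coeff_eq_zero_of_natDegree_lt (by omega)
      rw [h5, ← hdd, add_comm (dd (V k) k j), coeff_X_pow_mul, h3]
      simp
    · rw [map_add, h4, ← smul_eq_C_mul, map_smul, phi_step V hV e he e0 he0 k j (by omega) R h2 h3]
      push_cast
      simp
      ring

lemma PP_lower (V : ℕ → ℕ) (hV : ∀ k, 0 < V k) (e : ℕ → ℝ) (he : ∀ k, 0 < e k) (e0 : ℝ) (he0 : ∀ k, e k ≤ e0) (k : ℕ) :
    e k * Real.sqrt ((k : ℝ) + 1) ≤ ‖aeval (TOp V hV e he e0 he0) (PP V k)‖ := by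
  have hk : (0 : ℝ) < (k : ℝ) + 1 := by positivity
  have h1 := (RS_main V hV e he e0 he0 k (1 / Real.sqrt ((k : ℝ) + 1)) (k + 1) le_rfl).2.2.2
  have h2 : phi V hV e he e0 he0 k (PP V k) = ((e k * Real.sqrt ((k : ℝ) + 1) : ℝ) : ℂ) := by
    unfold PP
    rw [h1, ← Complex.ofReal_natCast, ← Complex.ofReal_mul, ← Complex.ofReal_mul]
    congr 1
    push_cast
    have h3 : Real.sqrt ((k : ℝ) + 1) ≠ 0 := (Real.sqrt_pos.2 hk).ne'
    have h4 : ((k : ℝ) + 1) * (1 / Real.sqrt ((k : ℝ) + 1)) = Real.sqrt ((k : ℝ) + 1) := by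
      field_simp
      rw [Real.sq_sqrt hk.le]
    rw [h4, mul_comm]
  have h4 : ‖phi V hV e he e0 he0 k (PP V k)‖ ≤ ‖aeval (TOp V hV e he e0 he0) (PP V k)‖ := by
    calc ‖phi V hV e he e0 he0 k (PP V k)‖ ≤ ‖(aeval (TOp V hV e he e0 he0) (PP V k)) (v0 k)‖ :=
          lp.norm_apply_le_norm (by norm_num) ((aeval (TOp V hV e he e0 he0) (PP V k)) (v0 k)) (k, false, 0)
      _ ≤ ‖aeval (TOp V hV e he e0 he0) (PP V k)‖ * ‖v0 k‖ := ContinuousLinearMap.le_opNorm _ _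
      _ = _ := by rw [v0_norm, mul_one]
  rw [h2, Complex.norm_real, Real.norm_of_nonneg (mul_nonneg (he k).le (Real.sqrt_nonneg _))] at h4
  exact h4

end Pool.Agent.Work.MP_ebd05c_an.D
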