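import Pool.Agent.Work.MP_ebd05c_an.D.Inv

set_option autoImplicit false

open scoped BigOperators ENNReal
open Finset Filter Topology

namespace Pool.Agent.Work.MP_ebd05c_an.D

/-- weighted composition on functions -/
noncomputable def WF (σ : Idx ≃ Idx) (a : Idx → ℂ) (x : Idx → ℂ) : Idx → ℂ :=
  fun i => a i * x (σ i)

lemma N2_WF (σ : Idx ≃ Idx) (a : Idx → ℂ) {C : ℝ} (ha : ∀ i, ‖a i‖ ≤ C)
    (x : Idx → ℂ) : N2 (WF σ a x) ≤ ENNReal.ofReal (C ^ 2) * N2 x := by
  unfold N2 WF
  rw [← σ.tsum_eq (fun i => ‖x i‖ₑ ^ 2), ← ENNReal.tsum_mul_left]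
  apply ENNReal.tsum_le_tsum
  intro i
  rw [enorm_sq_eq, enorm_sq_eq, ← ENNReal.ofReal_mul (by positivity)]
  apply ENNReal.ofReal_le_ofReal
  rw [norm_mul, mul_pow]
  have := ha i
  gcongr

/-- weighted composition operator -/
noncomputable def WOp (σ : Idx ≃ Idx) (a : Idx → ℂ) (C : ℝ) (hC : 0 ≤ C)
    (ha : ∀ i, ‖a i‖ ≤ C) : HH →L[ℂ] HH :=
  LinearMap.mkContinuous
    { toFun := fun x => ⟨WF σ a x, (mem_iff _).2 (ne_top_of_le_ne_top
        (ENNReal.mul_ne_top ENNReal.ofReal_ne_top ((mem_iff _).1 (lp.memℓp x)))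
        (N2_WF σ a ha x))⟩
      map_add' := fun x y => by
        apply lp.ext
        funext i
        show a i * ((x : Idx → ℂ) (σ i) + (y : Idx → ℂ) (σ i)) = _
        rw [mul_add]
        rfl
      map_smul' := fun c x => by
        apply lp.ext
        funext i
        show a i * (c * (x : Idx → ℂ) (σ i)) = c * (a i * (x : Idx → ℂ) (σ i))
        ring } C
    (fun x => norm_le_of_N2 hC (N2_WF σ a ha x))

lemma WOp_apply (σ : Idx ≃ Idx) (a : Idx → ℂ) (C : ℝ) (hC : 0 ≤ C) (ha : ∀ i, ‖a i‖ ≤ C)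
    (x : HH) : ((WOp σ a C hC ha x : HH) : Idx → ℂ) = WF σ a x := rfl

lemma WOp_norm (σ : Idx ≃ Idx) (a : Idx → ℂ) (C : ℝ) (hC : 0 ≤ C) (ha : ∀ i, ‖a i‖ ≤ C) :
    ‖WOp σ a C hC ha‖ ≤ C :=
  ContinuousLinearMap.opNorm_le_bound _ hC (fun x => norm_le_of_N2 hC (N2_WF σ a ha x))

/-- weights tending to zero give a compact operator -/
lemma WOp_compact (σ : Idx ≃ Idx) (a : Idx → ℂ) (C : ℝ) (hC : 0 ≤ C) (ha : ∀ i, ‖a i‖ ≤ C)
    (h0 : ∀ ε : ℝ, 0 < ε → {i | ε < ‖a i‖}.Finite) : IsCompactOperator (WOp σ a C hC ha) := by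
  classical
  -- finite truncations
  have hfin : ∀ n : ℕ, ∃ A : HH →L[ℂ] HH, IsCompactOperator A ∧
      ‖WOp σ a C hC ha - A‖ ≤ 1 / ((n : ℝ) + 1) := by
    intro n
    have hε : (0 : ℝ) < 1 / ((n : ℝ) + 1) := by positivity
    set F : Finset Idx := (h0 _ hε).toFinset with hF
    have hmem : ∀ i, i ∈ F ↔ 1 / ((n : ℝ) + 1) < ‖a i‖ := by
      intro i
      rw [hF, Set.Finite.mem_toFinset]
      rfl
    set b : Idx → ℂ := fun i => if i ∈ F then a i else 0 with hb
    have hbC : ∀ i, ‖b i‖ ≤ C := by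
      intro i
      rw [hb]
      by_cases h : i ∈ F
      · simpa [h] using ha i
      · simpa [h] using hC
    have hd : ∀ i, ‖a i - b i‖ ≤ 1 / ((n : ℝ) + 1) := by
      intro i
      by_cases h : i ∈ F
      · simp only [hb, h, if_true, sub_self, norm_zero]
        exact hε.le
      · simp only [hb, h, if_false, sub_zero]
        rw [hmem] at h
        exact not_lt.1 h
    refine ⟨WOp σ b C hC hbC, ?_, ?_⟩
    · -- finite rank
      have hsum : WOp σ b C hC hbC = ∑ i ∈ F,
          (ContinuousLinearMap.toSpanSingleton ℂ (lp.single 2 i (1 : ℂ) : HH)).comp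
            ((a i) • ((lp.evalCLM ℂ (fun _ : Idx => ℂ) 2 (σ i) : HH →L[ℂ] ℂ))) := by
        ext1 x
        apply lp.ext
        funext j
        rw [WOp_apply, _root_.sum_apply, lp.coeFn_sum, Finset.sum_apply]
        have h1 : ∀ i ∈ F, ((((ContinuousLinearMap.toSpanSingleton ℂ
            (lp.single 2 i (1 : ℂ) : HH)).comp
            ((a i) • ((lp.evalCLM ℂ (fun _ : Idx => ℂ) 2 (σ i) : HH →L[ℂ] ℂ)))) x : HH) :
              Idx → ℂ) j = if j = i then a i * (x : Idx → ℂ) (σ i) else 0 := by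
          intro i _
          have h2 : ((ContinuousLinearMap.toSpanSingleton ℂ
            (lp.single 2 i (1 : ℂ) : HH)).comp
            ((a i) • ((lp.evalCLM ℂ (fun _ : Idx => ℂ) 2 (σ i) : HH →L[ℂ] ℂ)))) x =
              (a i * (x : Idx → ℂ) (σ i)) • (lp.single 2 i (1 : ℂ) : HH) := rfl
          rw [h2, lp.coeFn_smul, Pi.smul_apply, lp.single_apply, Pi.single_apply]
          split_ifs <;> simp
        rw [Finset.sum_congr rfl h1, Finset.sum_ite_eq]
        simp only [WF, hb]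
        split_ifs <;> simp
      rw [hsum]
      have hmemc : (∑ i ∈ F, (ContinuousLinearMap.toSpanSingleton ℂ
          (lp.single 2 i (1 : ℂ) : HH)).comp
            ((a i) • ((lp.evalCLM ℂ (fun _ : Idx => ℂ) 2 (σ i) : HH →L[ℂ] ℂ)))) ∈
          compactOperator (RingHom.id ℂ) HH HH := by
        apply Submodule.sum_mem
        intro i _
        have h3 : IsCompactOperator (ContinuousLinearMap.toSpanSingleton ℂ
            (lp.single 2 i (1 : ℂ) : HH)) :=
          isCompactOperator_of_locallyCompactSpace_rng _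
        exact h3.comp_clm _
      exact hmemc
    · have he : WOp σ a C hC ha - WOp σ b C hC hbC =
          WOp σ (fun i => a i - b i) (1 / ((n : ℝ) + 1)) hε.le hd := by
        ext1 x
        apply lp.ext
        funext j
        show a j * (x : Idx → ℂ) (σ j) - b j * (x : Idx → ℂ) (σ j) =
          (a j - b j) * (x : Idx → ℂ) (σ j)
        ring
      rw [he]
      exact WOp_norm _ _ _ _ _
  choose A hA1 hA2 using hfin
  have hlim : Tendsto A atTop (𝓝 (WOp σ a C hC ha)) := by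
    rw [tendsto_iff_norm_sub_tendsto_zero]
    refine squeeze_zero (fun _ => norm_nonneg _) (fun n => ?_)
      tendsto_one_div_add_atTop_nhds_zero_nat
    rw [norm_sub_rev]
    exact hA2 n
  exact isCompactOperator_of_tendsto hlim (Eventually.of_forall hA1)

end Pool.Agent.Work.MP_ebd05c_an.D
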