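import Pool.Agent.Work.MP_ebd05c_an.Inv

set_option autoImplicit false

open scoped BigOperators ENNReal
open Finset

namespace Pool.Agent.Work.MP_ebd05c_an.D

/-- the n-th power as a map on functions -/
noncomputable def TF (V : ℕ → ℕ) (e : ℕ → ℝ) (n : ℕ) (x : Idx → ℂ) : Idx → ℂ := fun i =>
  match i with
  | (k, false, s) => ((rho (V k) k s / rho (V k) k (s - n) : ℝ) : ℂ) * x (k, false, s - n)
      + (e k : ℂ) * QF (V k) k n (fun t => x (k, true, t)) s
  | (k, true, t) => ((rho (V k) k (t + n) / rho (V k) k t : ℝ) : ℂ) * x (k, true, t + n)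

/-- recursion: the formula for n+1 from the formulas for 1 and n -/
lemma TF_succ {V : ℕ → ℕ} (hV : ∀ k, 0 < V k) (e : ℕ → ℝ) (n : ℕ) (x : Idx → ℂ) :
    TF V e (n + 1) x = TF V e 1 (TF V e n x) := by
  funext i
  obtain ⟨k, b, s⟩ := i
  have hp : ∀ t, (rho (V k) k t : ℂ) ≠ 0 := fun t => by
    exact_mod_cast (rho_pos (hV k) k t).ne'
  cases b with
  | true =>
    simp only [TF]
    have h1 : s + ((n + 1 : ℕ) : ℤ) = s + ((1 : ℕ) : ℤ) + n := by push_cast; ring
    rw [h1, ← mul_assoc]
    congr 1
    push_cast
    have := hp (s + 1)
    have := hp s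
    field_simp
  | false =>
    simp only [TF]
    have h1 : s - ((n + 1 : ℕ) : ℤ) = s - ((1 : ℕ) : ℤ) - n := by push_cast; ring
    rw [mul_add, ← mul_assoc, h1, add_assoc]
    congr 1
    · congr 1
      push_cast
      have := hp (s - 1)
      have := hp (s - 1 - n)
      field_simp
    · unfold QF
      rw [Finset.mul_sum, Finset.mul_sum, Finset.mul_sum, Finset.mul_sum,
        ← Finset.sum_add_distrib]
      apply Finset.sum_congr rfl
      intro j _
      have hl := ell_pos (V k) k j
      have hne := hp (s - 1)
      by_cases hc : s = -(ell (V k) k j : ℤ)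
      · -- the new term
        have ha : kap (V k) k (n + 1) j s = rho (V k) k (s + n) := by
          unfold kap
          rw [if_pos (by push_cast; omega)]
          have h2 : rho (V k) k s = 1 := rho_of_nonpos (hV k) k (by omega)
          have h3 : (((n + 1 : ℕ) : ℤ) - 1 - 2 * ell (V k) k j - s) = s + n := by
            push_cast; omega
          rw [h2, h3, one_mul]
        have hb : kap (V k) k n j (s - ((1 : ℕ) : ℤ)) = 0 := by
          unfold kap
          rw [if_neg (by push_cast; omega)]
        have hd : kap (V k) k 1 j s = 1 := by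
          unfold kap
          rw [if_pos (by push_cast; omega)]
          have h2 : rho (V k) k s = 1 := rho_of_nonpos (hV k) k (by omega)
          have h3 : (((1 : ℕ) : ℤ) - 1 - 2 * ell (V k) k j - s) = s := by
            push_cast; omega
          rw [h3, h2, one_mul]
        have h4 : (((1 : ℕ) : ℤ) - 1 - 2 * ell (V k) k j - s) = s := by
          push_cast; omega
        have h5 : (((n + 1 : ℕ) : ℤ) - 1 - 2 * ell (V k) k j - s) = s + n := by
          push_cast; omega
        have h6 : rho (V k) k s = 1 := rho_of_nonpos (hV k) k (by omega)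
        rw [ha, hb, hd, h4, h5]
        have h7 : ((rho (V k) k s : ℝ) : ℂ) = 1 := by rw [h6]; simp
        push_cast
        simp only [h7]
        ring
      · have hd : kap (V k) k 1 j s = 0 := by
          unfold kap
          rw [if_neg (by push_cast; omega)]
        rw [hd]
        have h5 : (((n + 1 : ℕ) : ℤ) - 1 - 2 * ell (V k) k j - s) =
            (n : ℤ) - 1 - 2 * ell (V k) k j - (s - ((1 : ℕ) : ℤ)) := by
          push_cast; ring
        rw [h5]
        by_cases hc2 : -(ell (V k) k j : ℤ) ≤ s ∧ s ≤ (n : ℤ) - ell (V k) k j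
        · have ha : kap (V k) k (n + 1) j s = rho (V k) k s *
              rho (V k) k ((n : ℤ) - 1 - 2 * ell (V k) k j - (s - ((1 : ℕ) : ℤ))) := by
            unfold kap
            rw [if_pos (by push_cast; omega), h5]
          have hb : kap (V k) k n j (s - ((1 : ℕ) : ℤ)) = rho (V k) k (s - ((1 : ℕ) : ℤ)) *
              rho (V k) k ((n : ℤ) - 1 - 2 * ell (V k) k j - (s - ((1 : ℕ) : ℤ))) := by
            unfold kap
            rw [if_pos (by push_cast; omega)]
          rw [ha, hb]
          push_cast
          field_simp
          ring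
        · have ha : kap (V k) k (n + 1) j s = 0 := by
            unfold kap
            rw [if_neg (by push_cast; omega)]
          have hb : kap (V k) k n j (s - ((1 : ℕ) : ℤ)) = 0 := by
            unfold kap
            rw [if_neg (by push_cast; omega)]
          rw [ha, hb]
          push_cast
          ring

end Pool.Agent.Work.MP_ebd05c_an.D
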