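import Pool.Agent.Work.MP_ebd05c_an.D.Op

set_option autoImplicit false

open scoped BigOperators ENNReal
open Finset Filter

namespace Pool.Agent.Work.MP_ebd05c_an.D

/-- the inverse as a map on functions -/
noncomputable def RF (V : ℕ → ℕ) (e : ℕ → ℝ) (x : Idx → ℂ) : Idx → ℂ := fun i =>
  match i with
  | (k, false, s) => ((rho (V k) k s / rho (V k) k (s + 1) : ℝ) : ℂ) *
      (x (k, false, s + 1) - (e k : ℂ) * ∑ j ∈ range (k + 1),
        if s + 1 = -(ell (V k) k j : ℤ) then x (k, true, s) else 0)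
  | (k, true, t) => ((rho (V k) k (t - 1) / rho (V k) k t : ℝ) : ℂ) * x (k, true, t - 1)

lemma TF_RF {V : ℕ → ℕ} (hV : ∀ k, 0 < V k) (e : ℕ → ℝ) (x : Idx → ℂ) :
    TF V e 1 (RF V e x) = x := by
  funext i
  obtain ⟨k, b, s⟩ := i
  have hp : ∀ t, (rho (V k) k t : ℂ) ≠ 0 := fun t => by
    exact_mod_cast (rho_pos (hV k) k t).ne'
  cases b with
  | true =>
    simp only [TF, RF]
    push_cast
    rw [add_sub_cancel_right]
    have := hp s
    have := hp (s + 1)
    field_simp
  | false =>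
    simp only [TF]
    rw [QF_one (hV k)]
    simp only [RF]
    push_cast
    rw [sub_add_cancel]
    have h1 : ∀ j ∈ range (k + 1), (if s = -(ell (V k) k j : ℤ) then
        (rho (V k) k (s - 1) : ℂ) / (rho (V k) k s : ℂ) * x (k, true, s - 1) else 0) =
        if s = -(ell (V k) k j : ℤ) then x (k, true, s - 1) else 0 := by
      intro j _
      by_cases h : s = -(ell (V k) k j : ℤ)
      · rw [if_pos h, if_pos h]
        have hl := ell_pos (V k) k j
        have h2 : rho (V k) k s = 1 := rho_of_nonpos (hV k) k (by omega)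
        have h3 : rho (V k) k (s - 1) = 1 := rho_of_nonpos (hV k) k (by omega)
        rw [h2, h3]
        simp
      · rw [if_neg h, if_neg h]
    rw [Finset.sum_congr rfl h1]
    have := hp s
    have := hp (s - 1)
    field_simp
    ring

lemma RF_TF {V : ℕ → ℕ} (hV : ∀ k, 0 < V k) (e : ℕ → ℝ) (x : Idx → ℂ) :
    RF V e (TF V e 1 x) = x := by
  funext i
  obtain ⟨k, b, s⟩ := i
  have hp : ∀ t, (rho (V k) k t : ℂ) ≠ 0 := fun t => by
    exact_mod_cast (rho_pos (hV k) k t).ne'
  cases b with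
  | true =>
    simp only [TF, RF]
    push_cast
    rw [sub_add_cancel]
    have := hp s
    have := hp (s - 1)
    field_simp
  | false =>
    simp only [RF]
    simp only [TF]
    rw [QF_one (hV k)]
    push_cast
    rw [add_sub_cancel_right]
    have h1 : ∀ j ∈ range (k + 1), (if s + 1 = -(ell (V k) k j : ℤ) then
        (rho (V k) k (s + 1) : ℂ) / (rho (V k) k s : ℂ) * x (k, true, s + 1) else 0) =
        if s + 1 = -(ell (V k) k j : ℤ) then x (k, true, s + 1) else 0 := by
      intro j _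
      by_cases h : s + 1 = -(ell (V k) k j : ℤ)
      · rw [if_pos h, if_pos h]
        have hl := ell_pos (V k) k j
        have h2 : rho (V k) k s = 1 := rho_of_nonpos (hV k) k (by omega)
        have h3 : rho (V k) k (s + 1) = 1 := rho_of_nonpos (hV k) k (by omega)
        rw [h2, h3]
        simp
      · rw [if_neg h, if_neg h]
    rw [Finset.sum_congr rfl h1]
    have := hp s
    have := hp (s + 1)
    field_simp
    ring

lemma RF_add (V : ℕ → ℕ) (e : ℕ → ℝ) (x y : Idx → ℂ) : RF V e (x + y) = RF V e x + RF V e y := by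
  funext i
  obtain ⟨k, b, s⟩ := i
  cases b with
  | true => simp only [RF, Pi.add_apply]; ring
  | false =>
    simp only [RF, Pi.add_apply]
    have h1 : ∀ j ∈ range (k + 1), (if s + 1 = -(ell (V k) k j : ℤ) then
        x (k, true, s) + y (k, true, s) else 0) =
        (if s + 1 = -(ell (V k) k j : ℤ) then x (k, true, s) else 0) +
        (if s + 1 = -(ell (V k) k j : ℤ) then y (k, true, s) else 0) := by
      intro j _
      split_ifs <;> simp
    rw [Finset.sum_congr rfl h1, Finset.sum_add_distrib]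
    ring

lemma RF_smul (V : ℕ → ℕ) (e : ℕ → ℝ) (c : ℂ) (x : Idx → ℂ) : RF V e (c • x) = c • RF V e x := by
  funext i
  obtain ⟨k, b, s⟩ := i
  cases b with
  | true => simp only [RF, Pi.smul_apply, smul_eq_mul]; ring
  | false =>
    simp only [RF, Pi.smul_apply, smul_eq_mul]
    have h1 : ∀ j ∈ range (k + 1), (if s + 1 = -(ell (V k) k j : ℤ) then
        c * x (k, true, s) else 0) =
        c * (if s + 1 = -(ell (V k) k j : ℤ) then x (k, true, s) else 0) := by
      intro j _
      split_ifs <;> simp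
    rw [Finset.sum_congr rfl h1, ← Finset.mul_sum]
    ring

lemma exists_good {ε : ℝ} (hε : 0 < ε) (hε1 : ε ≤ 1) (ω : ℕ → ℝ) (hω : Tendsto ω atTop atTop) :
    ∃ V : ℕ → ℕ, (∀ k, 0 < V k) ∧ (∀ k : ℕ, ((k : ℝ) + 1) * (8 / ε) ≤ V k) ∧
      Good V (ε / 8) (fun n => max (1 + ε) (ω n)) := by
  have h1 : ∀ k : ℕ, ∃ N : ℕ, ∀ n ≥ N, (1 + 2 * (ε / 8)) * ((k : ℝ) + 1) ^ 2 ≤ ω n := by
    intro k
    exact eventually_atTop.1 (hω.eventually_ge_atTop _)
  choose N hN using h1
  refine ⟨fun k => ⌈((N k : ℝ) + k + 1) / (ε / 8)⌉₊ + 1, fun k => Nat.succ_pos _, ?_, ?_⟩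
  · intro k
    push_cast
    have h2 := Nat.le_ceil (((N k : ℝ) + k + 1) / (ε / 8))
    have h3 : ((k : ℝ) + 1) * (8 / ε) ≤ ((N k : ℝ) + k + 1) / (ε / 8) := by
      rw [le_div_iff₀ (by positivity)]
      have h4 : ((k : ℝ) + 1) * (8 / ε) * (ε / 8) = (k : ℝ) + 1 := by field_simp
      rw [h4]
      have : (0 : ℝ) ≤ N k := by positivity
      linarith
    linarith
  intro n k
  have hVpos : 0 < ⌈((N k : ℝ) + k + 1) / (ε / 8)⌉₊ + 1 := Nat.succ_pos _
  by_cases h : N k ≤ n
  · refine ⟨(k : ℝ) + 1, by have : (0 : ℝ) ≤ k := by positivity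
                            linarith, (hN k n h).trans (le_max_right _ _), ?_⟩
    intro s
    exact rho_ratio' hVpos k s n
  · refine ⟨1 + ε / 8, by linarith, ?_, ?_⟩
    · refine le_trans ?_ (le_max_left _ _)
      nlinarith [mul_pos hε hε, mul_nonneg (mul_nonneg hε.le hε.le) (sub_nonneg.2 hε1),
        mul_nonneg hε.le (sub_nonneg.2 hε1)]
    · intro s
      refine (rho_ratio hVpos k s n).trans ?_
      have h2 : (n : ℝ) / ((⌈((N k : ℝ) + k + 1) / (ε / 8)⌉₊ + 1 : ℕ) : ℝ) ≤ ε / 8 := by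
        have h3 : (0 : ℝ) < ((⌈((N k : ℝ) + k + 1) / (ε / 8)⌉₊ + 1 : ℕ) : ℝ) := by
          exact_mod_cast hVpos
        rw [div_le_iff₀ h3]
        have h4 : ((N k : ℝ) + k + 1) / (ε / 8) ≤
            ((⌈((N k : ℝ) + k + 1) / (ε / 8)⌉₊ + 1 : ℕ) : ℝ) := by
          push_cast
          have := Nat.le_ceil (((N k : ℝ) + k + 1) / (ε / 8))
          linarith
        rw [div_le_iff₀ (by positivity)] at h4
        have h5 : (n : ℝ) ≤ N k := by exact_mod_cast (not_le.1 h).le
        have h6 : (0 : ℝ) ≤ k := by positivity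
        linarith
      have h6 := rho_pos hVpos k (s + n)
      exact mul_le_mul_of_nonneg_right (by linarith) h6.le

lemma N2_lower' {V : ℕ → ℕ} (hV : ∀ k, 0 < V k) {e : ℕ → ℝ} (he : ∀ k, 0 < e k) {e0 : ℝ} (he0 : ∀ k, e k ≤ e0) {w : ℕ → ℝ}
    (hw : Good V e0 w) (n : ℕ) (x : Idx → ℂ) :
    N2 x ≤ ENNReal.ofReal ((w n) ^ 2) * N2 (TF V e n x) :=
  N2_lower hV he he0 n x (hw n)

/-- the inverse operator -/
noncomputable def ROp (V : ℕ → ℕ) (hV : ∀ k, 0 < V k) (e : ℕ → ℝ) (he : ∀ k, 0 < e k) (e0 : ℝ) (he0 : ∀ k, e k ≤ e0) (w : ℕ → ℝ)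
    (hw : Good V e0 w) : HH →L[ℂ] HH :=
  LinearMap.mkContinuous
    { toFun := fun x => ⟨RF V e x, (mem_iff _).2 (ne_top_of_le_ne_top
        (ENNReal.mul_ne_top ENNReal.ofReal_ne_top (by
          rw [TF_RF hV]
          exact (mem_iff _).1 (lp.memℓp x)))
        (N2_lower' hV he he0 hw 1 (RF V e x)))⟩
      map_add' := fun x y => by
        apply lp.ext
        exact RF_add V e x y
      map_smul' := fun c x => by
        apply lp.ext
        exact RF_smul V e c x } (w 1)
    (fun x => norm_le_of_N2 (hw.nonneg (e0_pos he he0).1 1) (by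
      have := N2_lower' hV he he0 hw 1 (RF V e x)
      rw [TF_RF hV] at this
      exact this))

lemma TOp_mul_ROp (V : ℕ → ℕ) (hV : ∀ k, 0 < V k) (e : ℕ → ℝ) (he : ∀ k, 0 < e k) (e0 : ℝ) (he0 : ∀ k, e k ≤ e0) (w : ℕ → ℝ)
    (hw : Good V e0 w) : TOp V hV e he e0 he0 * ROp V hV e he e0 he0 w hw = 1 := by
  ext1 x
  apply lp.ext
  show TF V e 1 (RF V e x) = x
  exact TF_RF hV e x

lemma ROp_mul_TOp (V : ℕ → ℕ) (hV : ∀ k, 0 < V k) (e : ℕ → ℝ) (he : ∀ k, 0 < e k) (e0 : ℝ) (he0 : ∀ k, e k ≤ e0) (w : ℕ → ℝ)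
    (hw : Good V e0 w) : ROp V hV e he e0 he0 w hw * TOp V hV e he e0 he0 = 1 := by
  ext1 x
  apply lp.ext
  show RF V e (TF V e 1 x) = x
  exact RF_TF hV e x

lemma ROp_pow_norm (V : ℕ → ℕ) (hV : ∀ k, 0 < V k) (e : ℕ → ℝ) (he : ∀ k, 0 < e k) (e0 : ℝ) (he0 : ∀ k, e k ≤ e0) (w : ℕ → ℝ)
    (hw : Good V e0 w) (n : ℕ) : ‖(ROp V hV e he e0 he0 w hw) ^ n‖ ≤ w n := by
  have h0 : (0 : ℝ) ≤ w n := hw.nonneg (e0_pos he he0).1 n
  apply ContinuousLinearMap.opNorm_le_bound _ h0
  intro x
  apply norm_le_of_N2 h0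
  have h1 := N2_lower' hV he he0 hw n (((ROp V hV e he e0 he0 w hw) ^ n) x : HH)
  have h2 : TF V e n (((ROp V hV e he e0 he0 w hw) ^ n) x : HH) = x := by
    rw [← TOp_pow_apply V hV e he e0 he0]
    have hc : Commute (TOp V hV e he e0 he0) (ROp V hV e he e0 he0 w hw) := by
      show _ * _ = _ * _
      rw [TOp_mul_ROp, ROp_mul_TOp]
    have h3 : (TOp V hV e he e0 he0) ^ n * (ROp V hV e he e0 he0 w hw) ^ n = 1 := by
      rw [← hc.mul_pow, TOp_mul_ROp, one_pow]
    have h4 : ((TOp V hV e he e0 he0) ^ n) (((ROp V hV e he e0 he0 w hw) ^ n) x) = x := by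
      rw [← mul_apply_eq_comp, h3]
      rfl
    rw [h4]
  rw [h2] at h1
  exact h1

/-- class `C_1.` -/
lemma TOp_C1 (V : ℕ → ℕ) (hV : ∀ k, 0 < V k) (e : ℕ → ℝ) (he : ∀ k, 0 < e k) (e0 : ℝ) (he0 : ∀ k, e k ≤ e0) (x : HH) (hx : x ≠ 0) :
    ∃ c : ℝ, 0 < c ∧ ∀ n : ℕ, c ≤ ‖((TOp V hV e he e0 he0) ^ n) x‖ := by
  have hex : ∃ i, (x : Idx → ℂ) i ≠ 0 := by
    by_contra hc
    push Not at hc
    exact hx (lp.ext (funext hc))
  obtain ⟨⟨k, b, s⟩, hi⟩ := hex
  have hk1 : (0 : ℝ) < (k : ℝ) + 1 := by positivity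
  have hrat : ∀ s t : ℤ, 1 / ((k : ℝ) + 1) ≤ rho (V k) k s / rho (V k) k t := by
    intro s t
    rw [le_div_iff₀ (rho_pos (hV k) k t)]
    have h1 := rho_ge (hV k) k s
    have h2 := rho_le_one (hV k) k t
    have h3 : (0 : ℝ) ≤ 1 / ((k : ℝ) + 1) := by positivity
    nlinarith
  have key : ∀ (y : HH) (i : Idx), ‖(y : Idx → ℂ) i‖ ≤ ‖y‖ := fun y i =>
    lp.norm_apply_le_norm (by norm_num) y i
  by_cases htr : ∃ t, (x : Idx → ℂ) (k, true, t) ≠ 0
  · obtain ⟨t, ht⟩ := htr
    refine ⟨1 / ((k : ℝ) + 1) * ‖(x : Idx → ℂ) (k, true, t)‖, by positivity, fun n => ?_⟩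
    refine le_trans ?_ (key _ (k, true, t - n))
    rw [TOp_pow_apply]
    simp only [TF]
    rw [sub_add_cancel, norm_mul, Complex.norm_real, Real.norm_of_nonneg
      (div_nonneg (rho_pos (hV k) k _).le (rho_pos (hV k) k _).le)]
    exact mul_le_mul_of_nonneg_right (hrat _ _) (norm_nonneg _)
  · push Not at htr
    have hb : b = false := by
      cases b with
      | false => rfl
      | true => exact absurd (htr s) hi
    subst hb
    refine ⟨1 / ((k : ℝ) + 1) * ‖(x : Idx → ℂ) (k, false, s)‖, by positivity, fun n => ?_⟩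
    refine le_trans ?_ (key _ (k, false, s + n))
    rw [TOp_pow_apply]
    simp only [TF]
    have hq : QF (V k) k n (fun t => (x : Idx → ℂ) (k, true, t)) (s + n) = 0 := by
      unfold QF
      apply Finset.sum_eq_zero
      intro j _
      simp only [htr, mul_zero]
    rw [hq, mul_zero, add_zero, add_sub_cancel_right, norm_mul, Complex.norm_real, Real.norm_of_nonneg
      (div_nonneg (rho_pos (hV k) k _).le (rho_pos (hV k) k _).le)]
    exact mul_le_mul_of_nonneg_right (hrat _ _) (norm_nonneg _)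

/-- class `C_.1` -/
lemma TOp_C1_adj (V : ℕ → ℕ) (hV : ∀ k, 0 < V k) (e : ℕ → ℝ) (he : ∀ k, 0 < e k) (e0 : ℝ) (he0 : ∀ k, e k ≤ e0) (y : HH) (hy : y ≠ 0) :
    ∃ c : ℝ, 0 < c ∧ ∀ n : ℕ, c ≤ ‖((ContinuousLinearMap.adjoint (TOp V hV e he e0 he0)) ^ n) y‖ := by
  have hex : ∃ i, (y : Idx → ℂ) i ≠ 0 := by
    by_contra hc
    push Not at hc
    exact hy (lp.ext (funext hc))
  obtain ⟨⟨k, b, s⟩, hi⟩ := hex
  have hk1 : (0 : ℝ) < (k : ℝ) + 1 := by positivity
  have hrat : ∀ s t : ℤ, 1 / ((k : ℝ) + 1) ≤ rho (V k) k s / rho (V k) k t := by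
    intro s t
    rw [le_div_iff₀ (rho_pos (hV k) k t)]
    have h1 := rho_ge (hV k) k s
    have h2 := rho_le_one (hV k) k t
    have h3 : (0 : ℝ) ≤ 1 / ((k : ℝ) + 1) := by positivity
    nlinarith
  -- reduction to the pairing with powers applied to basis vectors
  have key : ∀ (n : ℕ) (i : Idx), ‖inner ℂ y (((TOp V hV e he e0 he0) ^ n) (lp.single 2 i (1 : ℂ)))‖ ≤
      ‖((ContinuousLinearMap.adjoint (TOp V hV e he e0 he0)) ^ n) y‖ := by
    intro n i
    have h1 : (ContinuousLinearMap.adjoint (TOp V hV e he e0 he0)) ^ n =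
        ContinuousLinearMap.adjoint ((TOp V hV e he e0 he0) ^ n) := by
      rw [← ContinuousLinearMap.star_eq_adjoint, ← ContinuousLinearMap.star_eq_adjoint, star_pow]
    rw [h1, ← ContinuousLinearMap.adjoint_inner_left]
    refine (norm_inner_le_norm _ _).trans ?_
    rw [lp.norm_single (by norm_num)]
    simp
  have hsingle : ∀ (i j : Idx), (lp.single 2 i (1 : ℂ) : HH) j = if j = i then 1 else 0 := by
    intro i j
    rw [lp.single_apply, Pi.single_apply]
  have hinn : ∀ (a b : ℂ), ‖inner ℂ a b‖ = ‖a‖ * ‖b‖ := by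
    intro a b
    rw [RCLike.inner_apply, norm_mul, RCLike.norm_conj]
    ring
  by_cases hfa : ∃ t, (y : Idx → ℂ) (k, false, t) ≠ 0
  · obtain ⟨t, ht⟩ := hfa
    refine ⟨1 / ((k : ℝ) + 1) * ‖(y : Idx → ℂ) (k, false, t)‖, by positivity, fun n => ?_⟩
    refine le_trans ?_ (key n (k, false, t - n))
    have hq : ∀ (k' : ℕ) (t' : ℤ), QF (V k') k' n (fun t'' =>
        (lp.single 2 ((k, false, t - n) : Idx) (1 : ℂ) : HH) (k', true, t'')) t' = 0 := by
      intro k' t'
      unfold QF
      apply Finset.sum_eq_zero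
      intro j _
      simp only [hsingle]
      rw [if_neg (by simp), mul_zero]
    have hval : ∀ i : Idx, i ≠ (k, false, t) →
        (((TOp V hV e he e0 he0) ^ n) (lp.single 2 (k, false, t - n) (1 : ℂ)) : Idx → ℂ) i = 0 := by
      intro i hi
      rw [TOp_pow_apply]
      obtain ⟨k', b', t'⟩ := i
      cases b' with
      | true =>
        simp only [TF, hsingle]
        rw [if_neg (by simp), mul_zero]
      | false =>
        simp only [TF]
        rw [hq, mul_zero, add_zero, hsingle, if_neg, mul_zero]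
        intro hc
        apply hi
        simp only [Prod.mk.injEq, true_and] at hc ⊢
        exact ⟨hc.1, by linarith [hc.2]⟩
    rw [lp.inner_eq_tsum, tsum_eq_single (k, false, t)]
    · rw [TOp_pow_apply]
      simp only [TF]
      rw [hq, mul_zero, add_zero, hsingle, if_pos rfl, mul_one, hinn, Complex.norm_real,
        Real.norm_of_nonneg (div_nonneg (rho_pos (hV k) k _).le (rho_pos (hV k) k _).le), mul_comm]
      exact mul_le_mul_of_nonneg_left (hrat _ _) (norm_nonneg _)
    · intro i hi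
      rw [hval i hi, inner_zero_right]
  · push Not at hfa
    have hb : b = true := by
      cases b with
      | true => rfl
      | false => exact absurd (hfa s) hi
    subst hb
    refine ⟨1 / ((k : ℝ) + 1) * ‖(y : Idx → ℂ) (k, true, s)‖, by positivity, fun n => ?_⟩
    refine le_trans ?_ (key n (k, true, s + n))
    rw [lp.inner_eq_tsum, tsum_eq_single (k, true, s)]
    · rw [TOp_pow_apply]
      simp only [TF]
      rw [hsingle, if_pos rfl, mul_one, hinn, Complex.norm_real,
        Real.norm_of_nonneg (div_nonneg (rho_pos (hV k) k _).le (rho_pos (hV k) k _).le), mul_comm]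
      exact mul_le_mul_of_nonneg_left (hrat _ _) (norm_nonneg _)
    · intro i hi'
      obtain ⟨k', b', t'⟩ := i
      by_cases hk : k' = k
      · subst hk
        cases b' with
        | false => rw [hfa t', inner_zero_left]
        | true =>
          rw [TOp_pow_apply]
          simp only [TF]
          rw [hsingle, if_neg, mul_zero, inner_zero_right]
          intro hc
          apply hi'
          simp only [Prod.mk.injEq, true_and] at hc ⊢
          linarith [hc]
      · have h0 : (((TOp V hV e he e0 he0) ^ n) (lp.single 2 (k, true, s + n) (1 : ℂ)) : Idx → ℂ)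
            (k', b', t') = 0 := by
          rw [TOp_pow_apply]
          cases b' with
          | true =>
            simp only [TF]
            rw [hsingle, if_neg, mul_zero]
            intro hc
            exact hk (by simpa using congrArg Prod.fst hc)
          | false =>
            simp only [TF]
            rw [hsingle, if_neg, mul_zero, zero_add]
            · have : QF (V k') k' n (fun t'' =>
                  (lp.single 2 ((k, true, s + n) : Idx) (1 : ℂ) : HH) (k', true, t'')) t' = 0 := by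
                unfold QF
                apply Finset.sum_eq_zero
                intro j _
                simp only [hsingle]
                rw [if_neg, mul_zero]
                intro hc
                exact hk (by simpa using congrArg Prod.fst hc)
              rw [this, mul_zero]
            · intro hc
              exact hk (by simpa using congrArg Prod.fst hc)
        rw [h0, inner_zero_right]

end Pool.Agent.Work.MP_ebd05c_an.D
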