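import Pool.Agent.Work.MP_ebd05c_an.D.Fun

set_option autoImplicit false

open scoped BigOperators ENNReal
open Finset

namespace Pool.Agent.Work.MP_ebd05c_an.D

lemma e0_pos {e : ℕ → ℝ} (he : ∀ k, 0 < e k) {e0 : ℝ} (he0 : ∀ k, e k ≤ e0) :
    0 < e0 ∧ 0 ≤ 1 + 2 * e0 := by
  have h1 : 0 < e0 := lt_of_lt_of_le (he 0) (he0 0)
  exact ⟨h1, by linarith⟩

section
variable {V : ℕ → ℕ} (hV : ∀ k, 0 < V k) {e : ℕ → ℝ} (he : ∀ k, 0 < e k) {e0 : ℝ} (he0 : ∀ k, e k ≤ e0)
include hV

lemma sq_true_le (n : ℕ) (x : Idx → ℂ) (k : ℕ) :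
    sq (fun s => TF V e n x (k, true, s)) ≤ sq (fun s => x (k, true, s)) := by
  have h1 : sq (fun s => TF V e n x (k, true, s)) ≤
      ENNReal.ofReal ((1 : ℝ) ^ 2) * sq (fun s => x (k, true, s + n)) := by
    simp only [TF]
    apply sq_mul_le (fun s => x (k, true, s + n))
    · intro s
      exact div_nonneg (rho_pos (hV k) k _).le (rho_pos (hV k) k _).le
    · intro s
      rw [div_le_one (rho_pos (hV k) k _)]
      exact rho_anti (hV k) k (by omega)
  rw [sq_shift (fun s => x (k, true, s)) n] at h1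
  simpa using h1

include he

lemma sq_false_le (n : ℕ) (x : Idx → ℂ) (k : ℕ) :
    sq (fun s => TF V e n x (k, false, s)) ≤
      ENNReal.ofReal (1 + e k) * sq (fun s => x (k, false, s)) +
      ENNReal.ofReal (4 * e k + 4 * e k ^ 2) * sq (fun s => x (k, true, s)) := by
  have h1 : sq (fun s => TF V e n x (k, false, s)) ≤
      ENNReal.ofReal (1 + e k) *
      sq (fun s => ((rho (V k) k s / rho (V k) k (s - n) : ℝ) : ℂ) * x (k, false, s - n)) +
      ENNReal.ofReal (1 + 1 / e k) *
      sq (fun s => (e k : ℂ) * QF (V k) k n (fun t => x (k, true, t)) s) := by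
    simp only [TF]
    exact sq_add_le (he k) _ _
  have h2 : sq (fun s => ((rho (V k) k s / rho (V k) k (s - n) : ℝ) : ℂ) *
      x (k, false, s - n)) ≤ ENNReal.ofReal ((1 : ℝ) ^ 2) *
      sq (fun s => x (k, false, s - n)) := by
    apply sq_mul_le (fun s => x (k, false, s - n))
    · intro s
      exact div_nonneg (rho_pos (hV k) k _).le (rho_pos (hV k) k _).le
    · intro s
      rw [div_le_one (rho_pos (hV k) k _)]
      exact rho_anti (hV k) k (by omega)
  have h3 : sq (fun s => x (k, false, s - n)) = sq (fun s => x (k, false, s)) := by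
    have := sq_shift (fun s => x (k, false, s)) (-(n : ℤ))
    simpa [sub_eq_add_neg] using this
  rw [h3] at h2
  simp only [one_pow, ENNReal.ofReal_one, one_mul] at h2
  have h4 := sq_eQF_le (hV k) (he k) k n (fun t => x (k, true, t))
  exact h1.trans (add_le_add (mul_le_mul_right h2 _) h4)

include he0

/-- powers are bounded by 1 + 2 e -/
lemma N2_upper (n : ℕ) (x : Idx → ℂ) :
    N2 (TF V e n x) ≤ ENNReal.ofReal ((1 + 2 * e0) ^ 2) * N2 x := by
  rw [N2_eq, N2_eq, ← ENNReal.tsum_mul_left]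
  apply ENNReal.tsum_le_tsum
  intro k
  have h1 := sq_true_le hV (e := e) n x k
  have h2 := sq_false_le hV he n x k
  set a := sq (fun s => x (k, false, s))
  set b := sq (fun s => x (k, true, s))
  calc sq (fun s => TF V e n x (k, false, s)) + sq (fun s => TF V e n x (k, true, s))
      ≤ (ENNReal.ofReal (1 + e k) * a + ENNReal.ofReal (4 * e k + 4 * e k ^ 2) * b) + b :=
        add_le_add h2 h1
    _ = ENNReal.ofReal (1 + e k) * a + ENNReal.ofReal (4 * e k + 4 * e k ^ 2 + 1) * b := by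
        rw [add_assoc]
        congr 1
        have h6 := he k
        rw [ENNReal.ofReal_add (p := 4 * e k + 4 * e k ^ 2) (q := 1) (by positivity)
          (by positivity), add_mul, ENNReal.ofReal_one, one_mul]
    _ ≤ ENNReal.ofReal ((1 + 2 * e0) ^ 2) * a + ENNReal.ofReal ((1 + 2 * e0) ^ 2) * b := by
        have h6 := he k
        have h7 := he0 k
        gcongr <;> nlinarith
    _ = _ := by rw [mul_add]

/-- lower bound for powers -/
lemma N2_lower (n : ℕ) (x : Idx → ℂ) {c : ℝ}
    (h : ∀ k, ∃ a : ℝ, 1 ≤ a ∧ (1 + 2 * e0) * a ^ 2 ≤ c ∧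
      ∀ s, rho (V k) k s ≤ a * rho (V k) k (s + n)) :
    N2 x ≤ ENNReal.ofReal (c ^ 2) * N2 (TF V e n x) := by
  rw [N2_eq, N2_eq, ← ENNReal.tsum_mul_left]
  apply ENNReal.tsum_le_tsum
  intro k
  obtain ⟨a, ha1, hac, har⟩ := h k
  have hpos := rho_pos (hV k) k
  set y := TF V e n x with hy
  have hyt : ∀ t, y (k, true, t) =
      ((rho (V k) k (t + n) / rho (V k) k t : ℝ) : ℂ) * x (k, true, t + n) := fun t => rfl
  have hyf : ∀ s, y (k, false, s) =
      ((rho (V k) k s / rho (V k) k (s - n) : ℝ) : ℂ) * x (k, false, s - n)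
      + (e k : ℂ) * QF (V k) k n (fun t => x (k, true, t)) s := fun s => rfl
  have hxt : ∀ t, x (k, true, t) =
      ((rho (V k) k (t - n) / rho (V k) k (t - n + n) : ℝ) : ℂ) * y (k, true, t - n) := by
    intro t
    rw [hyt, ← mul_assoc, ← Complex.ofReal_mul]
    have h1 : rho (V k) k (t - n) / rho (V k) k (t - n + n) *
        (rho (V k) k (t - n + n) / rho (V k) k (t - n)) = 1 := by
      have := (hpos (t - n)).ne'
      have := (hpos (t - n + n)).ne'
      field_simp
    rw [h1, Complex.ofReal_one, one_mul, sub_add_cancel]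
  have hxf : ∀ s, x (k, false, s) = ((rho (V k) k s / rho (V k) k (s + n) : ℝ) : ℂ) *
      (y (k, false, s + n) - (e k : ℂ) * QF (V k) k n (fun t => x (k, true, t)) (s + n)) := by
    intro s
    rw [hyf, add_sub_cancel_right, ← mul_assoc, ← Complex.ofReal_mul, add_sub_cancel_right]
    have h1 : rho (V k) k s / rho (V k) k (s + n) *
        (rho (V k) k (s + n) / rho (V k) k s) = 1 := by
      have := (hpos s).ne'
      have := (hpos (s + n)).ne'
      field_simp
    rw [h1, Complex.ofReal_one, one_mul]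
  -- true part
  have hT : sq (fun t => x (k, true, t)) ≤ ENNReal.ofReal (a ^ 2) *
      sq (fun t => y (k, true, t)) := by
    have h1 : sq (fun t => x (k, true, t)) ≤ ENNReal.ofReal (a ^ 2) *
        sq (fun t => y (k, true, t - n)) := by
      have e1 : (fun t => x (k, true, t)) = fun t =>
        ((rho (V k) k (t - n) / rho (V k) k (t - n + n) : ℝ) : ℂ) * y (k, true, t - n) :=
        funext hxt
      rw [e1]
      apply sq_mul_le (fun t => y (k, true, t - n))
      · intro t
        exact div_nonneg (hpos _).le (hpos _).le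
      · intro t
        rw [div_le_iff₀ (hpos _)]
        exact har _
    have h2 : sq (fun t => y (k, true, t - n)) = sq (fun t => y (k, true, t)) := by
      have := sq_shift (fun t => y (k, true, t)) (-(n : ℤ))
      simpa [sub_eq_add_neg] using this
    rwa [h2] at h1
  have hF : sq (fun s => x (k, false, s)) ≤ ENNReal.ofReal (a ^ 2) *
      (ENNReal.ofReal (1 + e k) * sq (fun s => y (k, false, s)) +
       ENNReal.ofReal (4 * e k + 4 * e k ^ 2) * sq (fun t => x (k, true, t))) := by
    have e1 : (fun s => x (k, false, s)) = fun s =>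
      ((rho (V k) k s / rho (V k) k (s + n) : ℝ) : ℂ) *
      (y (k, false, s + n) - (e k : ℂ) * QF (V k) k n (fun t => x (k, true, t)) (s + n)) :=
      funext hxf
    have h1 : sq (fun s => x (k, false, s)) ≤ ENNReal.ofReal (a ^ 2) *
        sq (fun s => y (k, false, s + n) -
          (e k : ℂ) * QF (V k) k n (fun t => x (k, true, t)) (s + n)) := by
      rw [e1]
      apply sq_mul_le (fun s => y (k, false, s + n) -
        (e k : ℂ) * QF (V k) k n (fun t => x (k, true, t)) (s + n))
      · intro t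
        exact div_nonneg (hpos _).le (hpos _).le
      · intro t
        rw [div_le_iff₀ (hpos _)]
        exact har _
    have h2 : sq (fun s => y (k, false, s + n) -
        (e k : ℂ) * QF (V k) k n (fun t => x (k, true, t)) (s + n)) =
        sq (fun s => y (k, false, s) - (e k : ℂ) * QF (V k) k n (fun t => x (k, true, t)) s) :=
      sq_shift (fun s => y (k, false, s) -
        (e k : ℂ) * QF (V k) k n (fun t => x (k, true, t)) s) n
    rw [h2] at h1
    refine h1.trans ?_
    gcongr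
    refine (sq_sub_le (he k) _ _).trans ?_
    exact add_le_add le_rfl (sq_eQF_le (hV k) (he k) k n (fun t => x (k, true, t)))
  set xf := sq (fun s => x (k, false, s))
  set xt := sq (fun s => x (k, true, s))
  set yf := sq (fun s => y (k, false, s))
  set yt := sq (fun s => y (k, true, s))
  have ha0 : (0 : ℝ) ≤ a ^ 2 := by positivity
  have ha2 : 1 ≤ a ^ 2 := by nlinarith
  have hek := he k
  have hek0 := he0 k
  have he00 : 0 < e0 := lt_of_lt_of_le hek hek0
  have hc0 : 0 ≤ (1 + 2 * e0) * a ^ 2 := by positivity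
  have hc3 : ((1 + 2 * e0) * a ^ 2) ^ 2 ≤ c ^ 2 := by gcongr
  have hc2 : ((1 + 2 * e k) * a ^ 2) ^ 2 ≤ c ^ 2 := le_trans (by gcongr) hc3
  calc xf + xt ≤ ENNReal.ofReal (a ^ 2) *
        (ENNReal.ofReal (1 + e k) * yf + ENNReal.ofReal (4 * e k + 4 * e k ^ 2) * xt) + xt :=
        add_le_add hF le_rfl
    _ ≤ ENNReal.ofReal (a ^ 2) * (ENNReal.ofReal (1 + e k) * yf +
        ENNReal.ofReal (4 * e k + 4 * e k ^ 2) * (ENNReal.ofReal (a ^ 2) * yt)) +
        ENNReal.ofReal (a ^ 2) * yt := by gcongr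
    _ = ENNReal.ofReal (a ^ 2 * (1 + e k)) * yf +
        ENNReal.ofReal (a ^ 2 * (4 * e k + 4 * e k ^ 2) * a ^ 2 + a ^ 2) * yt := by
        rw [ENNReal.ofReal_add (by positivity) ha0, ENNReal.ofReal_mul (by positivity),
          ENNReal.ofReal_mul (by positivity), ENNReal.ofReal_mul (by positivity)]
        ring
    _ ≤ ENNReal.ofReal (c ^ 2) * yf + ENNReal.ofReal (c ^ 2) * yt := by
        gcongr
        · refine le_trans ?_ hc2
          nlinarith [mul_nonneg hek.le ha0, mul_nonneg (mul_nonneg hek.le ha0) ha0,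
            mul_nonneg (mul_nonneg hek.le hek.le) (mul_nonneg ha0 ha0)]
        · refine le_trans ?_ hc2
          nlinarith [mul_nonneg hek.le ha0, mul_nonneg (mul_nonneg hek.le ha0) ha0,
            mul_nonneg (mul_nonneg hek.le hek.le) (mul_nonneg ha0 ha0)]
    _ = _ := by rw [mul_add]

end

lemma TF_add (V : ℕ → ℕ) (e : ℕ → ℝ) (n : ℕ) (x y : Idx → ℂ) :
    TF V e n (x + y) = TF V e n x + TF V e n y := by
  funext i
  obtain ⟨k, b, s⟩ := i
  cases b with
  | true => simp only [TF, Pi.add_apply]; ring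
  | false =>
    simp only [TF, Pi.add_apply]
    rw [QF_add]
    ring

lemma TF_smul (V : ℕ → ℕ) (e : ℕ → ℝ) (n : ℕ) (c : ℂ) (x : Idx → ℂ) :
    TF V e n (c • x) = c • TF V e n x := by
  funext i
  obtain ⟨k, b, s⟩ := i
  cases b with
  | true => simp only [TF, Pi.smul_apply, smul_eq_mul]; ring
  | false =>
    simp only [TF, Pi.smul_apply, smul_eq_mul]
    rw [QF_smul]
    ring

/-- the operator -/
noncomputable def TOp (V : ℕ → ℕ) (hV : ∀ k, 0 < V k) (e : ℕ → ℝ) (he : ∀ k, 0 < e k) (e0 : ℝ) (he0 : ∀ k, e k ≤ e0) : HH →L[ℂ] HH :=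
  LinearMap.mkContinuous
    { toFun := fun x => ⟨TF V e 1 x, (mem_iff _).2 (ne_top_of_le_ne_top
        (ENNReal.mul_ne_top ENNReal.ofReal_ne_top ((mem_iff _).1 (lp.memℓp x)))
        (N2_upper hV he he0 1 x))⟩
      map_add' := fun x y => by
        apply lp.ext
        exact TF_add V e 1 x y
      map_smul' := fun c x => by
        apply lp.ext
        exact TF_smul V e 1 c x } (1 + 2 * e0)
    (fun x => norm_le_of_N2 (e0_pos he he0).2 (N2_upper hV he he0 1 x))

lemma TOp_apply (V : ℕ → ℕ) (hV : ∀ k, 0 < V k) (e : ℕ → ℝ) (he : ∀ k, 0 < e k) (e0 : ℝ) (he0 : ∀ k, e k ≤ e0) (x : HH) :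
    ((TOp V hV e he e0 he0 x : HH) : Idx → ℂ) = TF V e 1 x := rfl

lemma TOp_pow_apply (V : ℕ → ℕ) (hV : ∀ k, 0 < V k) (e : ℕ → ℝ) (he : ∀ k, 0 < e k) (e0 : ℝ) (he0 : ∀ k, e k ≤ e0) (n : ℕ) (x : HH) :
    (((TOp V hV e he e0 he0) ^ n) x : Idx → ℂ) = TF V e n x := by
  induction n with
  | zero =>
    funext i
    obtain ⟨k, b, s⟩ := i
    have hp : ∀ t, rho (V k) k t ≠ 0 := fun t => (rho_pos (hV k) k t).ne'
    cases b with
    | true => simp [TF, hp]
    | false =>
      have hq : QF (V k) k 0 (fun t => (x : Idx → ℂ) (k, true, t)) s = 0 := by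
        unfold QF
        apply Finset.sum_eq_zero
        intro j _
        have : kap (V k) k 0 j s = 0 := by
          unfold kap
          rw [if_neg (by push_cast; omega)]
        rw [this]
        simp
      simp [TF, hp, hq]
  | succ n ih =>
    rw [pow_succ', mul_apply_eq_comp, TOp_apply, ih, ← TF_succ hV]

lemma TOp_pow_norm (V : ℕ → ℕ) (hV : ∀ k, 0 < V k) (e : ℕ → ℝ) (he : ∀ k, 0 < e k) (e0 : ℝ) (he0 : ∀ k, e k ≤ e0) (n : ℕ) :
    ‖(TOp V hV e he e0 he0) ^ n‖ ≤ 1 + 2 * e0 := by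
  apply ContinuousLinearMap.opNorm_le_bound _ (e0_pos he he0).2
  intro x
  apply norm_le_of_N2 (e0_pos he he0).2
  rw [TOp_pow_apply]
  exact N2_upper hV he he0 n x

end Pool.Agent.Work.MP_ebd05c_an.D
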