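import Pool.Agent.Work.MP_ebd05c_an.D.Comp

set_option autoImplicit false

open scoped BigOperators ENNReal
open Finset Filter Topology

namespace Pool.Agent.Work.MP_ebd05c_an.D

/-- a norm preserving operator with a right inverse is unitary -/
lemma mem_unitary_of {H : Type*} [NormedAddCommGroup H] [InnerProductSpace ℂ H] [CompleteSpace H]
    (U : H →L[ℂ] H) (h1 : ∀ x, ‖U x‖ = ‖x‖) (h2 : Function.Surjective U) :
    U ∈ unitary (H →L[ℂ] H) := by
  have h3 : ContinuousLinearMap.adjoint U * U = 1 :=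
    (ContinuousLinearMap.norm_map_iff_adjoint_comp_self U).1 h1
  rw [Unitary.mem_iff]
  refine ⟨h3, ?_⟩
  ext1 y
  obtain ⟨x, rfl⟩ := h2 y
  have h4 : ContinuousLinearMap.adjoint U (U x) = x := by
    have := congrArg (fun A : H →L[ℂ] H => A x) h3
    exact this
  show U (ContinuousLinearMap.adjoint U (U x)) = U x
  rw [h4]

/-- the shift of the index set -/
def sh : Idx ≃ Idx where
  toFun i := match i with
    | (k, false, s) => (k, false, s - 1)
    | (k, true, t) => (k, true, t + 1)
  invFun i := match i with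
    | (k, false, s) => (k, false, s + 1)
    | (k, true, t) => (k, true, t - 1)
  left_inv i := by
    obtain ⟨k, b, s⟩ := i
    cases b <;> simp
  right_inv i := by
    obtain ⟨k, b, s⟩ := i
    cases b <;> simp

/-- exchange of the two components -/
def sw : Idx ≃ Idx where
  toFun i := (i.1, !i.2.1, i.2.2)
  invFun i := (i.1, !i.2.1, i.2.2)
  left_inv i := by
    obtain ⟨k, b, s⟩ := i
    simp
  right_inv i := by
    obtain ⟨k, b, s⟩ := i
    simp

/-- weights of the diagonal part of the perturbation -/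
noncomputable def wa (V : ℕ → ℕ) : Idx → ℂ := fun i =>
  match i with
  | (k, false, s) => ((rho (V k) k s / rho (V k) k (s - 1) - 1 : ℝ) : ℂ)
  | (k, true, t) => ((rho (V k) k (t + 1) / rho (V k) k t - 1 : ℝ) : ℂ)

/-- weights of the coupling -/
noncomputable def wc (V : ℕ → ℕ) (e : ℕ → ℝ) : Idx → ℂ := fun i =>
  match i with
  | (k, false, s) => (e k : ℂ) * ∑ j ∈ range (k + 1), if s = -(ell (V k) k j : ℤ) then 1 else 0
  | (_, true, _) => 0

lemma ratio_bound {v : ℕ} (hv : 0 < v) (k : ℕ) (s : ℤ) :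
    |rho v k (s + 1) / rho v k s - 1| ≤ 1 / v := by
  have h1 := rho_ratio hv k s 1
  have h2 : rho v k (s + 1) ≤ rho v k s := rho_anti hv k (by omega)
  have h3 := rho_pos hv k s
  have h4 := rho_pos hv k (s + 1)
  have hv' : (0 : ℝ) < v := by exact_mod_cast hv
  have h5 : rho v k (s + 1) / rho v k s ≤ 1 := (div_le_one h3).2 h2
  rw [abs_sub_comm, abs_of_nonneg (by linarith)]
  push_cast at h1
  have h6 : 1 - 1 / (v : ℝ) ≤ rho v k (s + 1) / rho v k s := by
    rw [le_div_iff₀ h3]
    have h7 : 0 < 1 / (v : ℝ) := by positivity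
    have h8 : (1 - 1 / (v : ℝ)) * rho v k s ≤ (1 - 1 / (v : ℝ)) * rho v k s := le_rfl
    by_cases h9 : 1 / (v : ℝ) ≤ 1
    · nlinarith [mul_nonneg (sub_nonneg.2 h9) h4.le, mul_nonneg h7.le h4.le,
        mul_nonneg (mul_nonneg h7.le h7.le) h4.le]
    · push Not at h9
      nlinarith
  linarith

lemma ratio_eq_one {v : ℕ} (hv : 0 < v) (k : ℕ) (s : ℤ) (h : s < 0 ∨ ((k * v : ℕ) : ℤ) ≤ s) :
    rho v k (s + 1) / rho v k s = 1 := by
  rcases h with h | h
  · rw [rho_of_nonpos hv k (by omega), rho_of_nonpos hv k (by omega), div_one]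
  · rw [rho_of_ge hv k h, rho_of_ge hv k (by omega)]
    have : (0 : ℝ) < 1 / ((k : ℝ) + 1) := by positivity
    exact div_self this.ne'

lemma wa_bound {V : ℕ → ℕ} (hV : ∀ k, 0 < V k) (i : Idx) : ‖wa V i‖ ≤ 1 / (V i.1 : ℝ) := by
  obtain ⟨k, b, s⟩ := i
  cases b with
  | false =>
    simp only [wa]
    rw [Complex.norm_real, Real.norm_eq_abs]
    have := ratio_bound (hV k) k (s - 1)
    rwa [sub_add_cancel] at this
  | true =>
    simp only [wa]
    rw [Complex.norm_real, Real.norm_eq_abs]
    exact ratio_bound (hV k) k s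

lemma wa_zero {V : ℕ → ℕ} (hV : ∀ k, 0 < V k) (k : ℕ) (b : Bool) (s : ℤ)
    (h : s < 0 ∨ ((k * V k : ℕ) : ℤ) + 1 ≤ s) : wa V (k, b, s) = 0 := by
  cases b with
  | false =>
    simp only [wa]
    have := ratio_eq_one (hV k) k (s - 1) (by omega)
    rw [sub_add_cancel] at this
    rw [this]
    simp
  | true =>
    simp only [wa]
    rw [ratio_eq_one (hV k) k s (by omega)]
    simp

lemma wc_bound {V : ℕ → ℕ} {e : ℕ → ℝ} (he : ∀ k, 0 < e k) (i : Idx) :
    ‖wc V e i‖ ≤ e i.1 := by
  obtain ⟨k, b, s⟩ := i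
  cases b with
  | true => simpa [wc] using (he k).le
  | false =>
    simp only [wc]
    by_cases h : ∃ j ∈ range (k + 1), s = -(ell (V k) k j : ℤ)
    · obtain ⟨j, hj, hs⟩ := h
      rw [Finset.sum_eq_single_of_mem j hj]
      · rw [if_pos hs, mul_one, Complex.norm_real, Real.norm_of_nonneg (he k).le]
      · intro i hi hij
        rw [if_neg]
        intro hc
        rcases lt_or_gt_of_ne hij with h | h
        · have := ell_gap (V k) k h
          have := ell_pos (V k) k i
          omega
        · have := ell_gap (V k) k h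
          have := ell_pos (V k) k j
          omega
    · push Not at h
      rw [Finset.sum_eq_zero]
      · simpa using (he k).le
      · intro j hj
        rw [if_neg (h j hj)]

lemma wc_zero {V : ℕ → ℕ} {e : ℕ → ℝ} (k : ℕ) (b : Bool) (s : ℤ)
    (h : s < -(ell (V k) k k : ℤ) ∨ 0 ≤ s) : wc V e (k, b, s) = 0 := by
  cases b with
  | true => rfl
  | false =>
    simp only [wc]
    rw [Finset.sum_eq_zero, mul_zero]
    intro j hj
    rw [if_neg]
    intro hc
    have hj' : j ≤ k := by
      have := Finset.mem_range.1 hj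
      omega
    have h1 := ell_pos (V k) k j
    have h2 : ell (V k) k j ≤ ell (V k) k k := by
      rcases hj'.lt_or_eq with h | h
      · have := ell_gap (V k) k h
        omega
      · rw [h]
    omega

/-- a set of indices with bounded block number and bounded position is finite -/
lemma finite_of_bounds (S : Set Idx) (K : ℕ) (L M : ℕ → ℤ)
    (h : ∀ i ∈ S, i.1 < K ∧ L i.1 ≤ i.2.2 ∧ i.2.2 ≤ M i.1) : S.Finite := by
  have h1 : (⋃ k ∈ Set.Iio K, (fun p : Bool × ℤ => ((k, p.1, p.2) : Idx)) ''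
      (Set.univ ×ˢ Set.Icc (L k) (M k))).Finite := by
    apply Set.Finite.biUnion (Set.finite_Iio K)
    intro k _
    exact (Set.finite_univ.prod (Set.finite_Icc _ _)).image _
  refine h1.subset (fun i hi => ?_)
  obtain ⟨h2, h3, h4⟩ := h i hi
  rw [Set.mem_iUnion₂]
  exact ⟨i.1, h2, (i.2.1, i.2.2), ⟨Set.mem_univ _, h3, h4⟩, rfl⟩

lemma one_norm : ∀ i : Idx, ‖(fun _ : Idx => (1 : ℂ)) i‖ ≤ 1 := fun i => by simp

/-- the unitary operator -/
noncomputable def UOp : HH →L[ℂ] HH := WOp sh (fun _ => 1) 1 zero_le_one one_norm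

lemma UOp_unitary : UOp ∈ unitary (HH →L[ℂ] HH) := by
  set U' : HH →L[ℂ] HH := WOp sh.symm (fun _ => 1) 1 zero_le_one one_norm with hU'
  have h1 : ∀ x, U' (UOp x) = x := by
    intro x
    apply lp.ext
    funext i
    show (1 : ℂ) * ((1 : ℂ) * (x : Idx → ℂ) (sh (sh.symm i))) = _
    rw [one_mul, one_mul, Equiv.apply_symm_apply]
  have h2 : ∀ x, UOp (U' x) = x := by
    intro x
    apply lp.ext
    funext i
    show (1 : ℂ) * ((1 : ℂ) * (x : Idx → ℂ) (sh.symm (sh i))) = _
    rw [one_mul, one_mul, Equiv.symm_apply_apply]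
  apply mem_unitary_of
  · intro x
    apply le_antisymm
    · have h3 := (UOp.le_opNorm x).trans
        (mul_le_mul_of_nonneg_right (WOp_norm sh (fun _ => 1) 1 zero_le_one one_norm)
          (norm_nonneg x))
      rwa [one_mul] at h3
    · have h3 := (U'.le_opNorm (UOp x)).trans
        (mul_le_mul_of_nonneg_right (WOp_norm sh.symm (fun _ => 1) 1 zero_le_one one_norm)
          (norm_nonneg _))
      rwa [one_mul, h1] at h3
  · intro y
    exact ⟨U' y, h2 y⟩

/-- The operator is a compact perturbation of a unitary operator. -/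
theorem exists_pert (V : ℕ → ℕ) (hV : ∀ k, 0 < V k) (e : ℕ → ℝ) (he : ∀ k, 0 < e k) (e0 : ℝ)
    (he0 : ∀ k, e k ≤ e0) (het : Tendsto e atTop (𝓝 0)) (d : ℝ) (hd : 0 < d)
    (hVd : ∀ k : ℕ, 1 / (V k : ℝ) ≤ d / ((k : ℝ) + 1)) :
    ∃ K : HH →L[ℂ] HH, TOp V hV e he e0 he0 = UOp + K ∧ IsCompactOperator K ∧
      ‖K‖ ≤ d + e0 := by
  have hwa : ∀ i, ‖wa V i‖ ≤ d := by
    intro i
    refine (wa_bound hV i).trans ((hVd i.1).trans ?_)
    apply div_le_self hd.le
    have : (0 : ℝ) ≤ i.1 := by positivity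
    linarith
  have hwc : ∀ i, ‖wc V e i‖ ≤ e0 := fun i => (wc_bound he i).trans (he0 _)
  have he00 : 0 ≤ e0 := (e0_pos he he0).1.le
  refine ⟨WOp sh (wa V) d hd.le hwa + WOp sw (wc V e) e0 he00 hwc, ?_, ?_, ?_⟩
  · ext1 x
    apply lp.ext
    funext i
    obtain ⟨k, b, s⟩ := i
    cases b with
    | true =>
      show ((rho (V k) k (s + (1 : ℕ)) / rho (V k) k s : ℝ) : ℂ) * (x : Idx → ℂ) (k, true, s + (1 : ℕ))
        = 1 * (x : Idx → ℂ) (k, true, s + 1) +
          (((rho (V k) k (s + 1) / rho (V k) k s - 1 : ℝ) : ℂ) * (x : Idx → ℂ) (k, true, s + 1) +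
            0 * (x : Idx → ℂ) (k, false, s))
      push_cast
      ring
    | false =>
      show ((rho (V k) k s / rho (V k) k (s - (1 : ℕ)) : ℝ) : ℂ) *
          (x : Idx → ℂ) (k, false, s - (1 : ℕ)) +
          (e k : ℂ) * QF (V k) k 1 (fun t => (x : Idx → ℂ) (k, true, t)) s
        = 1 * (x : Idx → ℂ) (k, false, s - 1) +
          (((rho (V k) k s / rho (V k) k (s - 1) - 1 : ℝ) : ℂ) * (x : Idx → ℂ) (k, false, s - 1) +
            ((e k : ℂ) * ∑ j ∈ range (k + 1), if s = -(ell (V k) k j : ℤ) then 1 else 0) *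
              (x : Idx → ℂ) (k, true, s))
      rw [QF_one (hV k)]
      have h1 : ∑ j ∈ range (k + 1), (if s = -(ell (V k) k j : ℤ) then
          (x : Idx → ℂ) (k, true, s) else 0) =
          (∑ j ∈ range (k + 1), if s = -(ell (V k) k j : ℤ) then (1 : ℂ) else 0) *
            (x : Idx → ℂ) (k, true, s) := by
        rw [Finset.sum_mul]
        apply Finset.sum_congr rfl
        intro j _
        split_ifs <;> simp
      rw [h1]
      push_cast
      ring
  · apply IsCompactOperator.add
    · apply WOp_compact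
      intro ε hε
      obtain ⟨K, hK⟩ := exists_nat_gt (d / ε)
      apply finite_of_bounds _ K (fun _ => 0) (fun k => ((k * V k : ℕ) : ℤ))
      rintro ⟨k, b, s⟩ hi
      have hi' : ε < ‖wa V (k, b, s)‖ := hi
      refine ⟨?_, ?_⟩
      · by_contra hc
        have h1 : (K : ℝ) ≤ k := by exact_mod_cast not_lt.1 hc
        have h2 := (wa_bound hV (k, b, s)).trans (hVd k)
        have h3 : d / ((k : ℝ) + 1) ≤ ε := by
          rw [div_le_iff₀ (by positivity)]
          rw [div_lt_iff₀ hε] at hK
          nlinarith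
        linarith
      · constructor
        · by_contra hc
          rw [wa_zero hV k b s (Or.inl (not_le.1 hc)), norm_zero] at hi'
          linarith
        · by_contra hc
          have hc' : ((k * V k : ℕ) : ℤ) < s := not_le.1 hc
          rw [wa_zero hV k b s (Or.inr (by omega)), norm_zero] at hi'
          linarith
    · apply WOp_compact
      intro ε hε
      obtain ⟨K, hK⟩ := eventually_atTop.1 (het.eventually (gt_mem_nhds hε))
      apply finite_of_bounds _ K (fun k => -(ell (V k) k k : ℤ)) (fun _ => -1)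
      rintro ⟨k, b, s⟩ hi
      have hi' : ε < ‖wc V e (k, b, s)‖ := hi
      refine ⟨?_, ?_⟩
      · by_contra hc
        have h1 := hK k (not_lt.1 hc)
        have h2 := wc_bound (V := V) he (k, b, s)
        have h3 : ‖wc V e (k, b, s)‖ ≤ e k := h2
        linarith
      · constructor
        · by_contra hc
          rw [wc_zero k b s (Or.inl (not_le.1 hc)), norm_zero] at hi'
          linarith
        · by_contra hc
          have hc' : -1 < s := not_le.1 hc
          rw [wc_zero k b s (Or.inr (by omega)), norm_zero] at hi'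
          linarith
  · exact (norm_add_le _ _).trans (add_le_add (WOp_norm _ _ _ _ _) (WOp_norm _ _ _ _ _))

end Pool.Agent.Work.MP_ebd05c_an.D
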